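import Mathlib
import Pool.Agent.Lib.helper26.LambB

namespace Pool.Agent.Results.MP_29e051_nt.NotAutomatic
open Pool.Agent.H26Lamb

/-- The number `A_k`, the sum over `n ≥ 1` of `1 / (k ^ n - 1)`. -/
noncomputable def A (k : ℕ) : ℝ := ∑' n : ℕ, 1 / ((k : ℝ) ^ (n + 1) - 1)

/-- The `n`-th base-`k` digit of `x ≥ 0` after the radix point (for `n ≥ 1`). -/
noncomputable def digit (k : ℕ) (x : ℝ) (n : ℕ) : ℕ := ⌊x * (k : ℝ) ^ n⌋₊ % k

/-- `a` is produced by a finite automaton with output reading the base-`k` representation of `n`,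
either from the most significant digit or from the least significant digit. -/
def Automatic (k : ℕ) (a : ℕ → ℕ) : Prop :=
  ∃ (Q : Type) (_ : Finite Q) (δ : Q → ℕ → Q) (q0 : Q) (out : Q → ℕ),
    (∀ n, a n = out ((Nat.digits k n).reverse.foldl δ q0)) ∨
    (∀ n, a n = out ((Nat.digits k n).foldl δ q0))

lemma A_eq (k : ℕ) (hk : 2 ≤ k) : A k = T k 0 := by
  have h2 : (2 : ℝ) ≤ k := by exact_mod_cast hk
  have hr : ‖((k : ℝ))⁻¹‖ < 1 := by
    rw [norm_inv, Real.norm_eq_abs, abs_of_pos (by linarith)]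
    exact inv_lt_one_of_one_lt₀ (by linarith)
  have h := tsum_pow_div_one_sub_eq_tsum_sigma hr 0
  rw [tsum_pnat_eq_tsum_succ (f := fun n : ℕ => (n : ℝ) ^ 0 * ((k : ℝ))⁻¹ ^ n / (1 - ((k : ℝ))⁻¹ ^ n)),
    tsum_pnat_eq_tsum_succ (f := fun n : ℕ => ((ArithmeticFunction.sigma 0 n : ℕ) : ℝ) * ((k : ℝ))⁻¹ ^ n)] at h
  unfold A T
  refine Eq.trans ?_ (h.trans ?_)
  · congr 1
    ext n
    have h1 : (1 : ℝ) < (k : ℝ) ^ (n + 1) := one_lt_pow₀ (by linarith) (by omega)
    have h3 : (k : ℝ) ^ (n + 1) - 1 ≠ 0 := by linarith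
    have h4 : (k : ℝ) ^ (n + 1) ≠ 0 := by linarith
    rw [inv_pow, pow_zero, one_mul]
    field_simp
  · congr 1
    ext n
    rw [ArithmeticFunction.sigma_zero_apply, inv_pow, zero_add, div_eq_mul_inv]
    rfl

lemma digit_succ (k : ℕ) (hk : 2 ≤ k) (x : ℝ) (hx : 0 ≤ x) (m : ℕ) :
    digit k x (m + 1) = ⌊Int.fract (x * (k : ℝ) ^ m) * k⌋₊ ∧
    Int.fract (x * (k : ℝ) ^ (m + 1)) = Int.fract (Int.fract (x * (k : ℝ) ^ m) * k) := by
  have hk0 : (0 : ℝ) < k := by positivity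
  set f := Int.fract (x * (k : ℝ) ^ m) with hf
  have hf0 : 0 ≤ f := Int.fract_nonneg _
  have hf1 : f < 1 := Int.fract_lt_one _
  have e : x * (k : ℝ) ^ (m + 1) = f * k + ((⌊x * (k : ℝ) ^ m⌋₊ * k : ℕ) : ℝ) := by
    have := Int.floor_add_fract (x * (k : ℝ) ^ m)
    have h2 : ((⌊x * (k : ℝ) ^ m⌋₊ : ℕ) : ℝ) = (⌊x * (k : ℝ) ^ m⌋ : ℝ) :=
      natCast_floor_eq_intCast_floor (by positivity)
    push_cast
    rw [h2, pow_succ, ← mul_assoc, ← this]
    simp only [Int.floor_add_fract, hf]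
    rw [← add_mul, add_comm, Int.floor_add_fract]
  constructor
  · unfold digit
    rw [e, Nat.floor_add_natCast (by positivity), Nat.add_mul_mod_self_right, Nat.mod_eq_of_lt]
    rw [Nat.floor_lt (by positivity)]
    nlinarith
  · rw [e, Int.fract_add_natCast]

lemma zero_of_small (k : ℕ) (hk : 2 ≤ k) (x : ℝ) (hx : 0 ≤ x) (J : ℕ) : ∀ m : ℕ,
    Int.fract (x * (k : ℝ) ^ m) < 1 / (k : ℝ) ^ J → ∀ i < J, digit k x (m + i + 1) = 0 := by
  have hk0 : (0 : ℝ) < k := by positivity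
  have hk1 : (1 : ℝ) ≤ k := by exact_mod_cast (by omega : 1 ≤ k)
  induction J with
  | zero => intro m _ i hi; omega
  | succ J ih =>
    intro m h i hi
    obtain ⟨h1, h2⟩ := digit_succ k hk x hx m
    have hf0 : 0 ≤ Int.fract (x * (k : ℝ) ^ m) := Int.fract_nonneg _
    have h3 : Int.fract (x * (k : ℝ) ^ m) * k < 1 / (k : ℝ) ^ J := by
      rw [lt_div_iff₀ (by positivity)] at h ⊢
      rw [pow_succ (k : ℝ) J] at h
      linarith
    have h4 : 1 / (k : ℝ) ^ J ≤ 1 := by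
      rw [div_le_one (by positivity)]
      exact one_le_pow₀ hk1
    rcases i with _ | i
    · rw [add_zero, h1, Nat.floor_eq_zero]
      linarith
    · rw [show m + (i + 1) + 1 = (m + 1) + i + 1 by ring]
      apply ih _ _ _ (by omega)
      rw [h2, Int.fract_eq_self.2 ⟨by positivity, by linarith⟩]
      exact h3

lemma small_of_zero (k : ℕ) (hk : 2 ≤ k) (x : ℝ) (hx : 0 ≤ x) (J : ℕ) : ∀ m : ℕ,
    (∀ i < J, digit k x (m + i + 1) = 0) → Int.fract (x * (k : ℝ) ^ m) < 1 / (k : ℝ) ^ J := by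
  have hk0 : (0 : ℝ) < k := by positivity
  induction J with
  | zero => intro m _; simpa using Int.fract_lt_one _
  | succ J ih =>
    intro m h
    obtain ⟨h1, h2⟩ := digit_succ k hk x hx m
    have hf0 : 0 ≤ Int.fract (x * (k : ℝ) ^ m) := Int.fract_nonneg _
    have h3 := h 0 (by omega)
    rw [add_zero, h1, Nat.floor_eq_zero] at h3
    have h4 := ih (m + 1) (fun i hi => by
      rw [show m + 1 + i + 1 = m + (i + 1) + 1 by ring]; exact h _ (by omega))
    rw [h2, Int.fract_eq_self.2 ⟨by positivity, h3⟩] at h4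
    rw [lt_div_iff₀ (by positivity)] at h4 ⊢
    rw [pow_succ (k : ℝ) J]
    linarith

/-- the aligned block of zeros -/
def Z (k : ℕ) (a : ℕ → ℕ) (u t : ℕ) : Prop := ∀ v < k ^ t, a (v + k ^ t * u) = 0

lemma auto_blocks (k : ℕ) (hk : 2 ≤ k) (a : ℕ → ℕ) (ha : Automatic k a)
    (h1 : ∀ t, ∃ u, 0 < u ∧ Z k a u t) : ∃ u, 0 < u ∧ ∀ t0, ∃ t ≥ t0, Z k a u t := by
  classical
  choose u hu0 hu using h1
  have key : ∀ (C : Type) (_ : Finite C) (col : ℕ → C),
      (∀ t t', col t = col t' → Z k a (u t) t') → ∃ u, 0 < u ∧ ∀ t0, ∃ t ≥ t0, Z k a u t := by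
    intro C _ col hcol
    obtain ⟨c, hc⟩ := Finite.exists_infinite_fiber col
    have hinf : (col ⁻¹' {c}).Infinite := Set.infinite_coe_iff.1 hc
    obtain ⟨t1, ht1⟩ := hinf.nonempty
    refine ⟨u t1, hu0 t1, fun t0 => ?_⟩
    obtain ⟨t, ht, hlt⟩ := hinf.exists_gt t0
    exact ⟨t, hlt.le, hcol t1 t (ht1.trans ht.symm)⟩
  let pad : ℕ → ℕ → List ℕ := fun t v =>
    Nat.digits k v ++ List.replicate (t - (Nat.digits k v).length) 0
  have hpad : ∀ t v w, v < k ^ t → 0 < w →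
      Nat.digits k (v + k ^ t * w) = pad t v ++ Nat.digits k w := by
    intro t v w hv hw
    have hl := (Nat.digits_length_le_iff (b := k) (k := t) (by omega) v).2 hv
    rw [Nat.digits_append_zeroes_append_digits (by omega) hw, Nat.add_sub_cancel' hl]
  obtain ⟨Q, hQ, δ, q0, out, h | h⟩ := ha
  · apply key Q hQ (fun t => (Nat.digits k (u t)).reverse.foldl δ q0)
    intro t t' htt v hv
    have := hu t' v hv
    rw [h, hpad t' v _ hv (hu0 _), List.reverse_append, List.foldl_append] at this ⊢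
    rw [htt]
    exact this
  · apply key (Set Q) inferInstance (fun t => {q | ∃ v < k ^ t, q = (pad t v).foldl δ q0})
    intro t t' htt v hv
    have hmem : (pad t' v).foldl δ q0 ∈ {q | ∃ v < k ^ t, q = (pad t v).foldl δ q0} := by
      rw [htt]
      exact ⟨v, hv, rfl⟩
    obtain ⟨v', hv', e⟩ := hmem
    have := hu t v' hv'
    rw [h, hpad t v' _ hv' (hu0 _), List.foldl_append] at this
    rw [h, hpad t' v _ hv (hu0 _), List.foldl_append, e]
    exact this

theorem result (k : ℕ) (hk : 2 ≤ k) (c : ℕ) :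
    ¬ Automatic k (fun n => digit k (A k) (n + c)) := by
  intro ha
  rw [A_eq k hk] at ha
  have hx := T_nonneg k 0
  obtain ⟨u, hu0, hu⟩ := auto_blocks k hk _ ha (fun t => by
    obtain ⟨y0, hy0⟩ := main_E k (2 * k ^ t) 1 hk
    have hc : c < 4 ^ (y0 + c) :=
      lt_of_lt_of_le (Nat.lt_pow_self (by norm_num)) (Nat.pow_le_pow_right (by norm_num) (by omega))
    obtain ⟨m, j, hm, -, -, hsmall⟩ := hy0 (y0 + c + 1) (by omega) c (4 ^ (y0 + c))
      (by rw [pow_succ]; omega) (by rw [pow_succ]; omega)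
    have hz := zero_of_small k hk _ hx _ m hsmall
    have hkt : 0 < k ^ t := by positivity
    refine ⟨(m - c) / k ^ t + 1, by positivity, fun v hv => ?_⟩
    have h1 := Nat.div_add_mod (m - c) (k ^ t)
    have h2 := Nat.mod_lt (m - c) hkt
    rw [mul_add, mul_one]
    generalize k ^ t * ((m - c) / k ^ t) = P at *
    generalize (m - c) % k ^ t = R at *
    generalize k ^ t = K at *
    have := hz (v + (P + K) + c - m - 1) (by omega)
    rw [show m + (v + (P + K) + c - m - 1) + 1 = v + (P + K) + c by omega] at this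
    exact this)
  obtain ⟨y0, hy0⟩ := main_E k 0 (u + c + 3) hk
  obtain ⟨t, ht, hZ⟩ := hu (4 ^ y0 + 1)
  have hkt : t < k ^ t := Nat.lt_pow_self (by omega)
  have h4 : 1 ≤ 4 ^ y0 := Nat.one_le_pow _ _ (by norm_num)
  set N := k ^ t with hN
  set y := Nat.log 4 (N * u + c + N) + 1 with hy
  have hy1 : N * u + c + N < 4 ^ y := Nat.lt_pow_succ_log_self (by norm_num) _
  have hy2 : 4 ^ y ≤ 4 * (N * u + c + N) := by
    rw [hy, pow_succ]
    have := Nat.pow_log_le_self 4 (x := N * u + c + N) (by omega)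
    omega
  have hy3 : y0 ≤ y := by
    have : 4 ^ y0 < 4 ^ y := by omega
    exact ((Nat.pow_lt_pow_iff_right (by norm_num)).1 this).le
  obtain ⟨m, j, hm, hmj, hbig, -⟩ := hy0 y hy3 (N * u + c) (N - 1) (by omega) (by
    refine hy2.trans ?_
    have h5 : u + c + 1 < 4 ^ (u + c + 1) := Nat.lt_pow_self (by norm_num)
    obtain ⟨N', hN'⟩ : ∃ N', N = N' + 1 := ⟨N - 1, by omega⟩
    have hN1 : 1 ≤ N' := by omega
    rw [hN', show u + c + 3 = (u + c + 1) + 2 by ring, pow_add, Nat.add_sub_cancel]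
    have h6 : (u + c + 1) * N' ≤ 4 ^ (u + c + 1) * N' := Nat.mul_le_mul_right _ h5.le
    have h7 : u ≤ u * N' := Nat.le_mul_of_pos_right _ hN1
    have h8 : c ≤ c * N' := Nat.le_mul_of_pos_right _ hN1
    nlinarith)
  have := small_of_zero k hk _ hx (j + 1) m (fun i hi => by
    have := hZ (m + i + 1 - c - N * u) (by omega)
    simp only [← hN] at this
    rw [show m + i + 1 - c - N * u + N * u + c = m + i + 1 by omega] at this
    exact this)
  linarith

end Pool.Agent.Results.MP_29e051_nt.NotAutomatic
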